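import Mathlib

set_option autoImplicit false

namespace Pool.Agent.H.ChR

open Finset Classical

variable {V W : Type} [Fintype V] [Fintype W]

/-- positive semidefinite kernels -/
def PSD (A : V → V → ℝ) : Prop :=
  (∀ i j, A i j = A j i) ∧ ∀ x : V → ℝ, 0 ≤ ∑ i, ∑ j, x i * A i j * x j

lemma psd_iff (A : V → V → ℝ) : PSD A ↔ (Matrix.of A).PosSemidef := by
  rw [Matrix.posSemidef_iff_dotProduct_mulVec]
  have h1 : (Matrix.of A).IsHermitian ↔ ∀ i j, A i j = A j i := by
    constructor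
    · intro h i j
      simpa using (h.apply i j).symm
    · intro h
      ext i j
      simp [h i j]
  have h2 : ∀ x : V → ℝ, star x ⬝ᵥ (Matrix.of A).mulVec x = ∑ i, ∑ j, x i * A i j * x j := by
    intro x
    simp [dotProduct, Matrix.mulVec, mul_sum, mul_assoc]
  simp only [h1, h2, PSD]

lemma PSD.kron {A : V → V → ℝ} {B : W → W → ℝ} (hA : PSD A) (hB : PSD B) :
    PSD (fun i j : V × W => A i.1 j.1 * B i.2 j.2) := by
  rw [psd_iff] at *
  exact hA.kronecker hB

lemma PSD.pull {A : V → V → ℝ} (hA : PSD A) (φ : W → V) : PSD (fun i j => A (φ i) (φ j)) := by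
  rw [psd_iff] at *
  exact hA.submatrix φ

lemma PSD.pair {A B : V → V → ℝ} (hA : PSD A) (hB : PSD B) : 0 ≤ ∑ i, ∑ j, A i j * B i j := by
  simpa using ((hA.kron hB).pull (fun i : V => (i, i))).2 (fun _ => 1)

lemma PSD.comb {A B C : V → V → ℝ} (hA : PSD A) (hB : PSD B) {a b : ℝ} (ha : 0 ≤ a) (hb : 0 ≤ b)
    (h : ∀ i j, C i j = a * A i j + b * B i j) : PSD C := by
  refine ⟨fun i j => by rw [h, h, hA.1 i j, hB.1 i j], fun x => ?_⟩
  have : ∑ i, ∑ j, x i * C i j * x j
      = a * (∑ i, ∑ j, x i * A i j * x j) + b * (∑ i, ∑ j, x i * B i j * x j) := by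
    simp only [mul_sum, ← sum_add_distrib]
    refine sum_congr rfl fun i _ => sum_congr rfl fun j _ => ?_
    rw [h]; ring
  rw [this]
  exact add_nonneg (mul_nonneg ha (hA.2 x)) (mul_nonneg hb (hB.2 x))

lemma psd_outer (x : V → ℝ) : PSD (fun i j => x i * x j) := by
  refine ⟨fun i j => mul_comm _ _, fun y => ?_⟩
  have : ∑ i, ∑ j, y i * (x i * x j) * y j = (∑ i, y i * x i) ^ 2 := by
    rw [sq, sum_mul_sum]
    refine sum_congr rfl fun i _ => sum_congr rfl fun j _ => by ring
  rw [this]; positivity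

lemma PSD.scale {A : V → V → ℝ} (hA : PSD A) (s : V → ℝ) : PSD (fun i j => s i * A i j * s j) := by
  refine ⟨fun i j => by simp only; rw [hA.1 i j]; ring, fun y => ?_⟩
  have := hA.2 (fun i => y i * s i)
  refine this.trans_eq (sum_congr rfl fun i _ => sum_congr rfl fun j _ => by ring)

lemma PSD.two {A : V → V → ℝ} (hA : PSD A) (i j : V) (a b : ℝ) :
    0 ≤ a * a * A i i + 2 * a * b * A i j + b * b * A j j := by
  have := (hA.pull (fun k : Bool => if k then i else j)).2 (fun k => if k then a else b)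
  simp only [Fintype.sum_bool, if_true, Bool.false_eq_true, if_false] at this
  rw [hA.1 j i] at this
  linarith

lemma PSD.diag {A : V → V → ℝ} (hA : PSD A) (i : V) : 0 ≤ A i i := by
  simpa using hA.two i i 1 0

/-- spectral certificate of a large vector chromatic number -/
def Rich (ε : ℝ) (E : V → V → Prop) : Prop :=
  ∃ D T : V → V → ℝ, (∀ i j, i ≠ j → D i j = 0) ∧ (∀ i j, ¬ E i j → T i j = 0) ∧
    ∑ i, ∑ j, D i j = 1 ∧ ∑ i, ∑ j, T i j = 1 ∧
    PSD (fun i j => ε * D i j + T i j) ∧ PSD (fun i j => D i j - T i j)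

lemma sum_kron (A : V → V → ℝ) (B : W → W → ℝ) :
    ∑ i : V × W, ∑ j : V × W, A i.1 j.1 * B i.2 j.2 = (∑ i, ∑ j, A i j) * ∑ i, ∑ j, B i j := by
  rw [sum_mul_sum, Fintype.sum_prod_type]
  refine sum_congr rfl fun a _ => sum_congr rfl fun b _ => ?_
  rw [sum_mul_sum, Fintype.sum_prod_type]

lemma Rich.prod {ε : ℝ} (h0 : 0 < ε) (h1 : ε ≤ 1) {E : V → V → Prop} {E' : W → W → Prop}
    (h : Rich ε E) (h' : Rich ε E') :
    Rich ε (fun i j : V × W => E i.1 j.1 ∧ E' i.2 j.2) := by
  obtain ⟨D, T, hD, hT, sD, sT, hA, hB⟩ := h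
  obtain ⟨D', T', hD', hT', sD', sT', hA', hB'⟩ := h'
  have hp : 0 < 1 + ε := by linarith
  refine ⟨fun i j => D i.1 j.1 * D' i.2 j.2, fun i j => T i.1 j.1 * T' i.2 j.2, ?_, ?_, ?_, ?_, ?_,
    ?_⟩
  · intro i j hij
    simp only
    by_cases h : i.1 = j.1
    · rw [hD' _ _ (fun h2 => hij (Prod.ext h h2)), mul_zero]
    · rw [hD _ _ h, zero_mul]
  · intro i j hij
    simp only
    by_cases h : E i.1 j.1
    · rw [hT' _ _ (fun h2 => hij ⟨h, h2⟩), mul_zero]
    · rw [hT _ _ h, zero_mul]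
  · rw [sum_kron, sD, sD', mul_one]
  · rw [sum_kron, sT, sT', mul_one]
  · refine (hA.kron hA').comb (hB.kron hB') (a := 1 / (1 + ε)) (b := ε / (1 + ε)) (by positivity)
      (by positivity) fun i j => ?_
    field_simp
    ring
  · have h2 : PSD (fun i j : V × W => 1 * ((ε * D i.1 j.1 + T i.1 j.1) * (D' i.2 j.2 - T' i.2 j.2))
        + 1 * ((D i.1 j.1 - T i.1 j.1) * (ε * D' i.2 j.2 + T' i.2 j.2))) :=
      (hA.kron hB').comb (hB.kron hA') zero_le_one zero_le_one fun i j => rfl
    refine h2.comb (hB.kron hB') (a := 1 / (1 + ε)) (b := (1 - ε) / (1 + ε)) (by positivity)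
      (div_nonneg (by linarith) hp.le) fun i j => ?_
    field_simp
    ring

lemma Rich.obstr {ε : ℝ} {E : V → V → Prop} (h : Rich ε E) (Y : W → W → ℝ) (τ : ℝ)
    (hd : ∀ i, Y i i = τ) (hY : PSD (fun i j => Y i j - 1)) (φ : V → W)
    (hφ : ∀ i j, E i j → Y (φ i) (φ j) = 0) : 1 + ε ≤ ε * τ := by
  obtain ⟨D, T, hD, hT, sD, sT, hA, -⟩ := h
  have := hA.pair (hY.pull φ)
  have e : ∑ i, ∑ j, (ε * D i j + T i j) * (Y (φ i) (φ j) - 1)
      = (ε * τ - ε) * (∑ i, ∑ j, D i j) - ∑ i, ∑ j, T i j := by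
    simp only [mul_sum, ← sum_sub_distrib]
    refine sum_congr rfl fun i _ => sum_congr rfl fun j _ => ?_
    have h1 : D i j * Y (φ i) (φ j) = D i j * τ := by
      by_cases hij : i = j
      · rw [hij, hd]
      · rw [hD i j hij, zero_mul, zero_mul]
    have h2 : T i j * Y (φ i) (φ j) = 0 := by
      by_cases hij : E i j
      · rw [hφ i j hij, mul_zero]
      · rw [hT i j hij, zero_mul]
    linear_combination ε * h1 + h2
  rw [e, sD, sT] at this
  linarith

lemma Rich.colour {ε : ℝ} {E : V → V → Prop} (h : Rich ε E) (φ : V → W)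
    (hφ : ∀ i j, E i j → φ i ≠ φ j) : 1 + ε ≤ ε * Fintype.card W := by
  refine h.obstr (fun i j => if i = j then (Fintype.card W : ℝ) else 0) _ (fun i => if_pos rfl)
    ⟨fun i j => by simp only [eq_comm], fun x => ?_⟩ φ (fun i j hij => if_neg (hφ i j hij))
  have h1 := sq_sum_le_card_mul_sum_sq (s := (univ : Finset W)) (f := x)
  have e : ∑ i, ∑ j, x i * ((if i = j then (Fintype.card W : ℝ) else 0) - 1) * x j
      = Fintype.card W * ∑ i, x i ^ 2 - (∑ i, x i) ^ 2 := by
    rw [sq (∑ i, x i), sum_mul_sum, mul_sum, ← sum_sub_distrib]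
    refine sum_congr rfl fun i _ => ?_
    simp only [mul_sub, sub_mul, sum_sub_distrib, mul_ite, ite_mul, mul_zero, zero_mul,
      sum_ite_eq, mem_univ, if_true, mul_one]
    ring
  rw [e]
  rw [card_univ] at h1
  linarith

/-- density matrices -/
def Dens (V : Type) [Fintype V] : Set (V → V → ℝ) := {A | PSD A ∧ ∑ i, A i i = 1}

/-- matrices supported on the diagonal and on E -/
def Supp (E : V → V → Prop) : Set (V → V → ℝ) := {A | ∀ i j, i ≠ j → ¬ E i j → A i j = 0}

lemma dens_compact : IsCompact (Dens V) := by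
  have hc : IsClosed (Dens V) := by
    have : Dens V = ((⋂ i, ⋂ j, {A : V → V → ℝ | A i j = A j i}) ∩
        (⋂ x : V → ℝ, {A : V → V → ℝ | 0 ≤ ∑ i, ∑ j, x i * A i j * x j})) ∩
        {A : V → V → ℝ | ∑ i, A i i = 1} := by
      ext A
      simp [Dens, PSD]
    rw [this]
    refine ((isClosed_iInter fun i => isClosed_iInter fun j => isClosed_eq (by fun_prop)
      (by fun_prop)).inter (isClosed_iInter fun x => isClosed_le (by fun_prop) (by fun_prop))).inter
      (isClosed_eq (by fun_prop) (by fun_prop))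
  refine (isCompact_univ_pi fun _ : V => isCompact_univ_pi fun _ : V =>
    (isCompact_Icc : IsCompact (Set.Icc (-1 : ℝ) 1))).of_isClosed_subset hc ?_
  rintro A ⟨hA, ht⟩ i - j -
  have hle : ∀ k, A k k ≤ 1 := fun k => by
    rw [← ht]; exact single_le_sum (f := fun k => A k k) (fun k _ => hA.diag k) (mem_univ k)
  have h1 := hA.two i j 1 1
  have h2 := hA.two i j 1 (-1)
  have := hle i
  have := hle j
  constructor <;> linarith

lemma dens_convex : Convex ℝ (Dens V) := by
  rintro A ⟨hA, tA⟩ B ⟨hB, tB⟩ a b ha hb hab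
  refine ⟨hA.comb hB ha hb fun i j => by simp, ?_⟩
  simp only [Pi.add_apply, Pi.smul_apply, smul_eq_mul, sum_add_distrib, ← mul_sum, tA, tB]
  linarith

omit [Fintype V] in
lemma supp_closed (E : V → V → Prop) : IsClosed (Supp E) := by
  have : Supp E = ⋂ i, ⋂ j, ⋂ (_ : i ≠ j), ⋂ (_ : ¬ E i j), {A : V → V → ℝ | A i j = 0} := by
    ext A
    simp [Supp]
  rw [this]
  exact isClosed_iInter fun i => isClosed_iInter fun j => isClosed_iInter fun _ =>
    isClosed_iInter fun _ => isClosed_eq (by fun_prop) (by fun_prop)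

lemma rich_of {E : V → V → Prop} {t : ℝ} (ht : 1 < t) {A : V → V → ℝ} (hA : A ∈ Dens V)
    (hS : A ∈ Supp E) (hsum : t ≤ ∑ i, ∑ j, A i j) : Rich (1 / (t - 1)) E := by
  obtain ⟨B, ⟨⟨hB, tB⟩, hBS⟩, hmax⟩ := (dens_compact.inter_right (supp_closed E)).exists_isMaxOn
    ⟨A, hA, hS⟩ (f := fun A : V → V → ℝ => ∑ i, ∑ j, A i j) (by fun_prop)
  set l := ∑ i, ∑ j, B i j with hl
  have htl : t ≤ l := hsum.trans (hmax ⟨hA, hS⟩)
  have hl1 : 0 < l - 1 := by linarith
  have ht1 : 0 < t - 1 := by linarith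
  let D : V → V → ℝ := fun i j => if i = j then B i i else 0
  have hDq : ∀ s : V → ℝ, ∑ i, ∑ j, s i * D i j * s j = ∑ i, s i * B i i * s i := by
    intro s
    refine sum_congr rfl fun i _ => ?_
    simp [D]
  have hDsym : ∀ i j, D i j = D j i := by
    intro i j
    by_cases h : i = j
    · rw [h]
    · simp [D, h, Ne.symm h]
  have hDp : PSD D := ⟨hDsym, fun s => by
    rw [hDq]; exact sum_nonneg fun i _ => by nlinarith [hB.diag i, sq_nonneg (s i)]⟩
  have hkey : ∀ s : V → ℝ, ∑ i, ∑ j, s i * B i j * s j ≤ l * ∑ i, s i * B i i * s i := by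
    intro s
    have hs := hB.scale s
    set c := ∑ i, s i * B i i * s i with hc
    have hc0 : 0 ≤ c := sum_nonneg fun i _ => hs.diag i
    rcases hc0.eq_or_lt with h0 | h0
    · have hz := (sum_eq_zero_iff_of_nonneg (fun i _ => hs.diag i)).mp h0.symm
      rw [← h0, mul_zero]
      refine sum_nonpos fun i _ => sum_nonpos fun j _ => ?_
      have h1 := hs.two i j 1 (-1)
      have h2 := hz i (mem_univ _)
      have h3 := hz j (mem_univ _)
      linarith
    · have hm := hmax (a := fun i j => c⁻¹ * (s i * B i j * s j)) ⟨⟨hs.comb hs (a := c⁻¹) (b := 0)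
        (by positivity) le_rfl fun i j => by ring, by
          rw [← mul_sum, ← hc, inv_mul_cancel₀ h0.ne']⟩, fun i j h1 h2 => by
          simp only [hBS i j h1 h2]; ring⟩
      simp only [Set.mem_setOf_eq, ← mul_sum] at hm
      rw [inv_mul_le_iff₀ h0] at hm
      linarith
  have sD : ∑ i, ∑ j, D i j = 1 := by
    rw [← tB]
    refine sum_congr rfl fun i _ => ?_
    simp [D]
  refine ⟨D, fun i j => (B i j - D i j) / (l - 1), fun i j h => if_neg h, ?_, sD, ?_, ?_, ?_⟩
  · intro i j h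
    by_cases hij : i = j
    · simp [D, hij]
    · simp [D, hij, hBS i j hij h]
  · simp only [← sum_div, sum_sub_distrib, sD]
    exact div_self hl1.ne'
  · refine hDp.comb hB (a := 1 / (t - 1) - 1 / (l - 1)) (b := 1 / (l - 1))
      (sub_nonneg.mpr (one_div_le_one_div_of_le ht1 (by linarith))) (by positivity) fun i j => ?_
    ring
  · refine ⟨fun i j => by simp only; rw [hDsym i j, hB.1 i j], fun s => ?_⟩
    have e : ∑ i, ∑ j, s i * (D i j - (B i j - D i j) / (l - 1)) * s j
        = (l * (∑ i, ∑ j, s i * D i j * s j) - ∑ i, ∑ j, s i * B i j * s j) / (l - 1) := by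
      simp only [mul_sum, ← sum_sub_distrib, sum_div]
      refine sum_congr rfl fun i _ => sum_congr rfl fun j _ => ?_
      field_simp
      ring
    rw [e, hDq]
    exact div_nonneg (sub_nonneg.mpr (hkey s)) hl1.le

lemma dual [Nonempty V] {E : V → V → Prop} (hs : ∀ i j, E i j → E j i) (hi : ∀ i, ¬ E i i)
    {t : ℝ} (ht : 1 < t) (h : ∀ A ∈ Dens V, A ∈ Supp E → ∑ i, ∑ j, A i j < t) :
    ∃ Y : V → V → ℝ, (∀ i, Y i i = t) ∧ (∀ i j, E i j → Y i j = 0) ∧
      PSD (fun i j => Y i j - 1) := by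
  have hconv : Convex ℝ (Supp E ∩ {A : V → V → ℝ | t ≤ ∑ i, ∑ j, A i j}) := by
    rintro A ⟨hA, tA⟩ B ⟨hB, tB⟩ a b ha hb hab
    refine ⟨fun i j h1 h2 => by simp [hA i j h1 h2, hB i j h1 h2], ?_⟩
    simp only [Set.mem_setOf_eq, Pi.add_apply, Pi.smul_apply, smul_eq_mul, sum_add_distrib,
      ← mul_sum] at tA tB ⊢
    have : t = a * t + b * t := by rw [← add_mul, hab, one_mul]
    nlinarith [mul_le_mul_of_nonneg_left tA ha, mul_le_mul_of_nonneg_left tB hb]
  obtain ⟨f, u, v, h1, huv, h2⟩ := geometric_hahn_banach_compact_closed dens_convex dens_compact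
    hconv ((supp_closed E).inter (isClosed_le (by fun_prop) (by fun_prop)))
    (Set.disjoint_left.mpr fun A hA hB => absurd (h A hA hB.1) (not_lt.mpr hB.2))
  let e : V → V → V → V → ℝ := fun i j k l => if k = i ∧ l = j then 1 else 0
  let F : V → V → ℝ := fun i j => f (e i j)
  have hf : ∀ A : V → V → ℝ, f A = ∑ i, ∑ j, A i j * F i j := by
    intro A
    have : A = ∑ i, ∑ j, A i j • e i j := by
      funext k l
      simp only [Finset.sum_apply, Pi.smul_apply, smul_eq_mul, e, mul_ite, mul_one, mul_zero]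
      rw [sum_eq_single k, sum_eq_single l]
      · simp
      · intro b _ hb; simp [Ne.symm hb]
      · simp
      · intro b _ hb; simp [Ne.symm hb]
      · simp
    conv_lhs => rw [this]
    simp only [map_sum, map_smul, smul_eq_mul, F]
  have se : ∀ i j, ∑ k, ∑ l, e i j k l = 1 := by
    intro i j
    rw [sum_eq_single i, sum_eq_single j]
    · simp [e]
    · intro b _ hb; simp [e, hb]
    · simp
    · intro b _ hb; simp [e, hb]
    · simp
  have hes : ∀ i j, (i = j ∨ E i j) → e i j ∈ Supp E := by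
    intro i j hij k l h1 h2
    simp only [e]
    rw [if_neg]
    rintro ⟨rfl, rfl⟩
    exact hij.elim h1 h2
  obtain ⟨o⟩ := ‹Nonempty V›
  have hline : ∀ i j, (i = j ∨ E i j) → ∀ r : ℝ, v < t * F o o + r * (F i j - F o o) := by
    intro i j hij r
    have := h2 ((t - r) • e o o + r • e i j) ⟨fun k l a b => by
      simp [hes o o (Or.inl rfl) k l a b, hes i j hij k l a b], by
      simp only [Set.mem_setOf_eq, Pi.add_apply, Pi.smul_apply, smul_eq_mul, sum_add_distrib,
        ← mul_sum, se]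
      linarith⟩
    rw [map_add, map_smul, map_smul, smul_eq_mul, smul_eq_mul] at this
    simp only [F]
    linarith
  have hF : ∀ i j, (i = j ∨ E i j) → F i j = F o o := by
    intro i j hij
    by_contra hne
    have hne' : F i j - F o o ≠ 0 := sub_ne_zero.mpr hne
    have := hline i j hij ((v - t * F o o) / (F i j - F o o))
    rw [div_mul_cancel₀ _ hne'] at this
    linarith
  have hq : ∀ x : V → ℝ, ∑ i, ∑ j, x i * x j * F i j ≤ u * ∑ i, x i * x i := by
    intro x
    set c := ∑ i, x i * x i with hc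
    have hc0 : 0 ≤ c := sum_nonneg fun i _ => mul_self_nonneg _
    rcases hc0.eq_or_lt with h0 | h0
    · have hz := (sum_eq_zero_iff_of_nonneg (fun i _ => mul_self_nonneg (x i))).mp h0.symm
      have hx : ∀ i, x i = 0 := fun i => mul_self_eq_zero.mp (hz i (mem_univ _))
      simp [hx, ← h0]
    · have := h1 (fun i j => c⁻¹ * (x i * x j)) ⟨(psd_outer x).comb (psd_outer x) (a := c⁻¹) (b := 0)
        (by positivity) le_rfl fun i j => by ring, by
          rw [← mul_sum, ← hc, inv_mul_cancel₀ h0.ne']⟩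
      rw [hf] at this
      simp only [mul_assoc c⁻¹, ← mul_sum] at this
      rw [inv_mul_lt_iff₀ h0] at this
      linarith
  set μ := F o o with hμ
  have hμu : μ ≤ u := by
    have := hq (fun i => if i = o then 1 else 0)
    simpa using this
  have hvt : v < t * μ := by simpa using hline o o (Or.inl rfl) 0
  have hμ0 : 0 < μ := by nlinarith
  refine ⟨fun i j => (if i = j then t else 0) - (F i j + F j i) / (2 * μ) + 1, fun i => ?_,
    fun i j hij => ?_, fun i j => ?_, fun x => ?_⟩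
  · simp only [if_true, hF i i (Or.inl rfl)]
    field_simp
    ring
  · have hne : i ≠ j := fun h => hi i (by rwa [← h] at hij)
    simp only [if_neg hne, hF i j (Or.inr hij), hF j i (Or.inr (hs i j hij))]
    field_simp
    ring
  · simp only [eq_comm (a := i), add_comm (F i j)]
  · have e1 : ∑ i, ∑ j, x i * ((if i = j then t else 0) - (F i j + F j i) / (2 * μ) + 1 - 1) * x j
        = t * ∑ i, x i * x i - ((∑ i, ∑ j, x i * x j * F i j) + ∑ i, ∑ j, x i * x j * F j i)
          / (2 * μ) := by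
      rw [← sum_add_distrib, sum_div, mul_sum, ← sum_sub_distrib]
      refine sum_congr rfl fun i _ => ?_
      have : t * (x i * x i) = ∑ j, x i * (if i = j then t else 0) * x j := by
        simp; ring
      rw [this, ← sum_add_distrib, sum_div, ← sum_sub_distrib]
      refine sum_congr rfl fun j _ => by ring
    have e2 : ∑ i, ∑ j, x i * x j * F j i = ∑ i, ∑ j, x i * x j * F i j := by
      rw [sum_comm]
      refine sum_congr rfl fun i _ => sum_congr rfl fun j _ => by ring
    rw [e1, e2, sub_nonneg, div_le_iff₀ (by positivity)]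
    have h3 := hq x
    have h4 : 0 ≤ ∑ i, x i * x i := sum_nonneg fun i _ => mul_self_nonneg _
    nlinarith [mul_le_mul_of_nonneg_right (huv.trans hvt).le h4]

lemma rich_or {E : V → V → Prop} (hs : ∀ i j, E i j → E j i) (hi : ∀ i, ¬ E i i)
    {t : ℝ} (ht : 1 < t) (hN : t * t ≤ Fintype.card V) :
    Rich (1 / (t - 1)) E ∨ Rich (1 / (t - 1)) (fun i j => i ≠ j ∧ ¬ E i j) := by
  have hN0 : (0 : ℝ) < Fintype.card V := by nlinarith
  haveI : Nonempty V := Fintype.card_pos_iff.mp (by exact_mod_cast hN0)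
  by_cases h : ∀ A ∈ Dens V, A ∈ Supp E → ∑ i, ∑ j, A i j < t
  · right
    obtain ⟨Y, hd, hE, hY⟩ := dual hs hi ht h
    have ht0 : 0 < t := by linarith
    refine rich_of ht (A := fun i j => (t * Fintype.card V)⁻¹ * Y i j) ⟨hY.comb
      (psd_outer fun _ => 1) (a := (t * Fintype.card V)⁻¹) (b := (t * Fintype.card V)⁻¹)
      (by positivity) (by positivity) fun i j => by ring, ?_⟩ ?_ ?_
    · simp only [hd, sum_const, card_univ, nsmul_eq_mul]
      field_simp
    · intro i j h1 h2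
      simp only [hE i j (by by_contra h3; exact h2 ⟨h1, h3⟩), mul_zero]
    · have := hY.2 (fun _ => 1)
      simp only [one_mul, mul_one, sum_sub_distrib, sum_const, card_univ, nsmul_eq_mul] at this
      simp only [← mul_sum]
      rw [le_inv_mul_iff₀ (by positivity)]
      nlinarith
  · left
    push Not at h
    obtain ⟨A, hA, hS, hsum⟩ := h
    exact rich_of ht hA hS hsum

lemma exists_prod {ε : ℝ} (h0 : 0 < ε) (h1 : ε ≤ 1) (E0 : V → V → Prop) (hE0 : Rich ε E0)
    (hi0 : ∀ i, ¬ E0 i i) (hs0 : ∀ i j, E0 i j → E0 j i) (S : Finset (V → V → Prop)) :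
    (∀ E ∈ S, Rich ε E ∧ ∀ i j, E i j → E j i) →
    ∃ (n : ℕ) (G : Fin n → Fin n → Prop), Rich ε G ∧ (∀ i, ¬ G i i) ∧ (∀ i j, G i j → G j i) ∧
      ∀ E ∈ S, ∃ φ : Fin n → V, ∀ i j, G i j → E (φ i) (φ j) := by
  have tr : ∀ (X : Type) [Fintype X] (G : X → X → Prop), Rich ε G →
      Rich ε (fun i j => G ((Fintype.equivFin X).symm i) ((Fintype.equivFin X).symm j)) := by
    intro X _ G ⟨D, T, hD, hT, sD, sT, hA, hB⟩
    set e := (Fintype.equivFin X).symm
    refine ⟨fun i j => D (e i) (e j), fun i j => T (e i) (e j),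
      fun i j h => hD _ _ (e.injective.ne h), fun i j h => hT _ _ h, ?_, ?_, hA.pull e, hB.pull e⟩
    · rw [← sD, ← e.sum_comp]
      exact sum_congr rfl fun i _ => e.sum_comp (fun j => D (e i) j)
    · rw [← sT, ← e.sum_comp]
      exact sum_congr rfl fun i _ => e.sum_comp (fun j => T (e i) j)
  induction S using Finset.induction_on with
  | empty => exact fun _ => ⟨_, _, tr V E0 hE0, fun i => hi0 _, fun i j => hs0 _ _, by simp⟩
  | insert E S _ ih =>
    intro h
    obtain ⟨n, G, hG, hGi, hGs, hφ⟩ := ih fun E' hE' => h E' (mem_insert_of_mem hE')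
    have hE := h E (mem_insert_self _ _)
    refine ⟨_, _, tr _ _ (hG.prod h0 h1 hE.1), fun i hh => hGi _ hh.1,
      fun i j hh => ⟨hGs _ _ hh.1, hE.2 _ _ hh.2⟩, fun E' hE' => ?_⟩
    rcases mem_insert.mp hE' with rfl | hE'
    · exact ⟨fun i => ((Fintype.equivFin _).symm i).2, fun i j hh => hh.2⟩
    · obtain ⟨φ, hφ⟩ := hφ E' hE'
      exact ⟨fun i => φ ((Fintype.equivFin _).symm i).1, fun i j hh => hφ _ _ hh.1⟩

/-- a rich graph that maps into a colour class of every 2-colouring of the complete graph -/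
lemma universal (t : ℝ) (ht : 2 ≤ t) (N : ℕ) (hN : t * t ≤ N) :
    ∃ (n : ℕ) (G : Fin n → Fin n → Prop), Rich (1 / (t - 1)) G ∧ (∀ i, ¬ G i i) ∧
      (∀ i j, G i j → G j i) ∧ ∀ c : Fin N → Fin N → Bool, (∀ i j, c i j = c j i) →
        ∃ (φ : Fin n → Fin N) (b : Bool), ∀ i j, G i j → φ i ≠ φ j ∧ c (φ i) (φ j) = b := by
  have ht1 : 1 < t := by linarith
  have h0 : 0 < 1 / (t - 1) := by
    have : 0 < t - 1 := by linarith
    positivity
  have h1 : 1 / (t - 1) ≤ 1 := by
    rw [div_le_one (by linarith)]; linarith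
  have key : ∀ c : Fin N → Fin N → Bool, (∀ i j, c i j = c j i) →
      ∃ b, Rich (1 / (t - 1)) (fun i j => i ≠ j ∧ c i j = b) := by
    intro c hc
    rcases rich_or (E := fun i j => i ≠ j ∧ c i j = true) (fun i j h => ⟨h.1.symm, by
      rw [← hc]; exact h.2⟩) (fun i h => h.1 rfl) ht1 (by simpa using hN) with h | h
    · exact ⟨true, h⟩
    · refine ⟨false, ?_⟩
      convert h using 3 with i j
      by_cases hij : i = j <;> simp [hij]
  obtain ⟨b0, hb0⟩ := key (fun _ _ => true) (fun _ _ => rfl)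
  obtain ⟨n, G, hG, hGi, hGs, hφ⟩ := exists_prod h0 h1 _ hb0 (fun i h => h.1 rfl)
    (fun i j h => ⟨h.1.symm, h.2⟩)
    (univ.filter (fun E : Fin N → Fin N → Prop => Rich (1 / (t - 1)) E ∧ ∀ i j, E i j → E j i))
    (fun E hE => (mem_filter.mp hE).2)
  refine ⟨n, G, hG, hGi, hGs, fun c hc => ?_⟩
  obtain ⟨b, hb⟩ := key c hc
  obtain ⟨φ, h⟩ := hφ _ (mem_filter.mpr ⟨mem_univ _, hb, fun i j h => ⟨h.1.symm, by
    rw [← hc]; exact h.2⟩⟩)
  exact ⟨φ, b, h⟩

end Pool.Agent.H.ChR
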