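import Mathlib
import Pool.Agent.H.MP_c4704f_co.A
import Pool.Agent.H.MP_c044fe_co.A

set_option autoImplicit false

namespace Pool.Agent.H.ChR

open Finset Classical

section plane
variable {F : Type} [Field F] [Fintype F]

lemma aniso [CharP F 2] (hq : Fintype.card F % 3 = 2) {a b : F} (h : a ^ 2 + a * b + b ^ 2 = 0) :
    a = 0 := by
  by_contra ha
  set w := b / a with hw
  have hb : b = w * a := by rw [hw]; field_simp
  have h1 : w ^ 2 + w + 1 = 0 := by
    have : a ^ 2 * (w ^ 2 + w + 1) = 0 := by rw [← h, hb]; ring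
    exact (mul_eq_zero.mp this).resolve_left (pow_ne_zero _ ha)
  have h3 : w ^ 3 = 1 := by linear_combination (w - 1) * h1
  have h4 := FiniteField.pow_card w
  rw [← Nat.div_add_mod (Fintype.card F) 3, hq, pow_add, pow_mul, h3, one_pow, one_mul] at h4
  have h2 : (2 : F) = 0 := CharP.ofNat_eq_zero F 2
  have : (1 : F) = 0 := by linear_combination h1 - h4 - w * h2
  exact one_ne_zero this

/-- v lies on the line attached to u -/
def On (u v : F × F) : Prop := v.2 = u.2 + (v.1 - u.1) * u.1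

/-- the triangle-free graph -/
def Bz (u v : F × F) : Prop := u ≠ v ∧ (On u v ∨ On v u)

omit [Fintype F] in
lemma Bz.symm {u v : F × F} (h : Bz u v) : Bz v u := ⟨h.1.symm, h.2.symm⟩

omit [Fintype F] in
lemma Bz.ne {u v : F × F} (h : Bz u v) : v.1 - u.1 ≠ 0 := by
  intro h0
  apply h.1
  have h1 : v.1 = u.1 := sub_eq_zero.mp h0
  rcases h.2 with h2 | h2 <;> unfold On at h2 <;> rw [h1] at h2
  · exact Prod.ext h1.symm (by linear_combination -h2)
  · exact Prod.ext h1.symm (by linear_combination h2)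

lemma tri [CharP F 2] (hq : Fintype.card F % 3 = 2) {u v w : F × F} (h1 : Bz u v) (h2 : Bz v w)
    (h3 : Bz u w) : False := by
  have n1 := h1.ne
  have n2 := h2.ne
  have n3 := h3.ne
  have n4 : (v.1 - u.1) ^ 2 + (v.1 - u.1) * (w.1 - v.1) + (w.1 - v.1) ^ 2 ≠ 0 :=
    fun h => n1 (aniso hq h)
  have m1 := mul_ne_zero n1 n2
  have m2 := mul_ne_zero n1 n3
  have m3 := mul_ne_zero n2 n3
  rcases h1.2 with a | a <;> rcases h2.2 with b | b <;> rcases h3.2 with c | c <;>
    unfold On at a b c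
  · exact m1 (by linear_combination c - a - b)
  · exact n4 (by linear_combination a + b + c)
  · exact m3 (by linear_combination c - a + b)
  · exact m2 (by linear_combination a - b + c)
  · exact m2 (by linear_combination a - b + c)
  · exact m3 (by linear_combination c - a + b)
  · exact n4 (by linear_combination a + b + c)
  · exact m1 (by linear_combination c - a - b)

lemma line_sq (z : F × F → ℝ) :
    ∑ u : F × F, (∑ x, z (x, u.2 + (x - u.1) * u.1)) ^ 2
      ≤ Fintype.card F * ∑ v, z v ^ 2 + (∑ v, z v) ^ 2 := by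
  let col : F → ℝ := fun x => ∑ y, z (x, y)
  have e1 : ∑ u : F × F, (∑ x, z (x, u.2 + (x - u.1) * u.1)) ^ 2
      = ∑ x, ∑ x', ∑ u : F × F, z (x, u.2 + (x - u.1) * u.1) * z (x', u.2 + (x' - u.1) * u.1) := by
    simp only [sq, sum_mul_sum]
    rw [sum_comm]
    exact sum_congr rfl fun x _ => sum_comm
  have e2 : ∀ x x', ∑ u : F × F, z (x, u.2 + (x - u.1) * u.1) * z (x', u.2 + (x' - u.1) * u.1)
      ≤ (if x = x' then Fintype.card F * ∑ y, z (x, y) ^ 2 - col x * col x else 0)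
        + col x * col x' := by
    intro x x'
    split_ifs with h
    · subst h
      rw [Fintype.sum_prod_type, sub_add_cancel]
      have : ∀ s : F, ∑ y, z (x, y + (x - s) * s) * z (x, y + (x - s) * s) = ∑ y, z (x, y) ^ 2 := by
        intro s
        rw [← Equiv.sum_comp (Equiv.addRight ((x - s) * s)) (fun y => z (x, y) ^ 2)]
        simp [sq]
      simp [this]
    · have hinj : Function.Injective
          (fun u : F × F => (u.2 + (x - u.1) * u.1, u.2 + (x' - u.1) * u.1)) := by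
        intro u u' huu
        simp only [Prod.mk.injEq] at huu
        have h1 : (x - x') * (u.1 - u'.1) = 0 := by linear_combination huu.1 - huu.2
        have h2 : u.1 = u'.1 :=
          sub_eq_zero.mp ((mul_eq_zero.mp h1).resolve_left (sub_ne_zero.mpr h))
        refine Prod.ext h2 ?_
        have := huu.1
        rw [h2] at this
        exact add_right_cancel this
      have := (Equiv.ofBijective _ (Finite.injective_iff_bijective.mp hinj)).sum_comp
        (fun p : F × F => z (x, p.1) * z (x', p.2))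
      simp only [Equiv.ofBijective_apply] at this
      rw [this, zero_add, sum_mul_sum, Fintype.sum_prod_type]
  rw [e1]
  refine (sum_le_sum fun x _ => sum_le_sum fun x' _ => e2 x x').trans ?_
  simp only [sum_add_distrib, sum_ite_eq, mem_univ, if_true, sum_sub_distrib, ← mul_sum,
    ← sum_mul, Fintype.sum_prod_type]
  have : 0 ≤ ∑ x, col x * col x := sum_nonneg fun x _ => mul_self_nonneg _
  rw [sq (∑ x, ∑ y, z (x, y))]
  linarith

lemma line_sum (z : F × F → ℝ) :
    ∑ u : F × F, ∑ x, z (x, u.2 + (x - u.1) * u.1) = Fintype.card F * ∑ v, z v := by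
  rw [Fintype.sum_prod_type, Fintype.sum_prod_type]
  have : ∀ s : F, ∑ y, ∑ x, z (x, y + (x - s) * s) = ∑ x, ∑ y, z (x, y) := by
    intro s
    rw [sum_comm]
    exact sum_congr rfl fun x _ => Equiv.sum_comp (Equiv.addRight ((x - s) * s)) (fun y => z (x, y))
  simp [this]

lemma exists_Y (r : ℝ) (hr : 0 < r) (hq : (Fintype.card F : ℝ) ≤ r ^ 2) :
    ∃ Y : F × F → F × F → ℝ, (∀ u, Y u u = Fintype.card F * (r + 1)) ∧
      (∀ u v, u ≠ v → ¬ Bz u v → Y u v = 0) ∧ PSD (fun u v => Y u v - 1) := by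
  set q : ℝ := (Fintype.card F : ℝ) with hqdef
  have hq0 : 0 < q := by rw [hqdef]; exact_mod_cast Fintype.card_pos
  let n : F × F → F × F → ℝ := fun u v => if On u v then 1 else 0
  refine ⟨fun u v => (if u = v then q * r else 0) + q / 2 * (n u v + n v u), fun u => ?_,
    fun u v h1 h2 => ?_, fun u v => ?_, fun z => ?_⟩
  · have : On u u := by simp [On]
    simp only [n, if_true, if_pos this]
    ring
  · have h3 : ¬ On u v := fun h => h2 ⟨h1, Or.inl h⟩
    have h4 : ¬ On v u := fun h => h2 ⟨h1, Or.inr h⟩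
    simp [n, h1, h3, h4]
  · simp only [eq_comm (a := u), add_comm (n u v)]
  · let L : F × F → ℝ := fun u => ∑ x, z (x, u.2 + (x - u.1) * u.1)
    have hL : ∀ u, ∑ v, n u v * z v = L u := by
      intro u
      rw [Fintype.sum_prod_type]
      refine sum_congr rfl fun x _ => ?_
      simp [n, On]
    set σ := ∑ v, z v with hσ
    set Z := ∑ v, z v ^ 2 with hZ
    have e1 : ∑ u, ∑ v, z u * n u v * z v = ∑ u, z u * L u := by
      refine sum_congr rfl fun u _ => ?_
      rw [← hL, mul_sum]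
      exact sum_congr rfl fun v _ => by ring
    have e2 : ∑ u, ∑ v, z u * n v u * z v = ∑ u, z u * L u := by
      rw [sum_comm, ← e1]
      exact sum_congr rfl fun u _ => sum_congr rfl fun v _ => by ring
    have e3 : ∑ u, ∑ v, z u * (if u = v then q * r else 0) * z v = q * r * Z := by
      rw [hZ, mul_sum]
      refine sum_congr rfl fun u _ => ?_
      simp; ring
    have e4 : ∑ u, ∑ v, z u * z v = σ ^ 2 := by rw [sq, hσ, sum_mul_sum]
    have e : ∑ u, ∑ v, z u * ((if u = v then q * r else 0) + q / 2 * (n u v + n v u) - 1) * z v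
        = q * r * Z + q * ∑ u, z u * L u - σ ^ 2 := by
      have : q * ∑ u, z u * L u = q / 2 * (∑ u, ∑ v, z u * n u v * z v)
          + q / 2 * ∑ u, ∑ v, z u * n v u * z v := by rw [e1, e2]; ring
      rw [this, ← e3, ← e4]
      simp only [mul_sum, ← sum_add_distrib, ← sum_sub_distrib]
      exact sum_congr rfl fun u _ => sum_congr rfl fun v _ => by ring
    rw [e]
    have h1 : ∑ u, L u ^ 2 ≤ q * Z + σ ^ 2 := line_sq z
    have h2 : ∑ u, L u = q * σ := line_sum z
    have h3 : 0 ≤ ∑ u, (r * q * z u + (q * L u - σ)) ^ 2 := sum_nonneg fun u _ => sq_nonneg _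
    have h4 : ∑ u, (r * q * z u + (q * L u - σ)) ^ 2
        = r ^ 2 * q ^ 2 * Z + 2 * r * q ^ 2 * ∑ u, z u * L u - 2 * r * q * σ * σ
          + q ^ 2 * ∑ u, L u ^ 2 - 2 * q * σ * ∑ u, L u + q ^ 2 * σ ^ 2 := by
      have hc : ∑ _u : F × F, σ ^ 2 = q ^ 2 * σ ^ 2 := by
        rw [sum_const, card_univ, Fintype.card_prod, nsmul_eq_mul]
        push_cast
        ring
      rw [← hc]
      conv_rhs => rw [hZ]; enter [1, 1, 1, 2, 2]; rw [hσ]
      simp only [mul_sum, ← sum_add_distrib, ← sum_sub_distrib]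
      exact sum_congr rfl fun u _ => by ring
    have hZ0 : 0 ≤ Z := sum_nonneg fun u _ => sq_nonneg _
    rw [h4, h2] at h3
    have h5 : q ^ 2 * ∑ u, L u ^ 2 ≤ q ^ 2 * (r ^ 2 * Z + σ ^ 2) := by
      refine mul_le_mul_of_nonneg_left (h1.trans ?_) (by positivity)
      nlinarith
    have h6 : 0 ≤ (2 * r * q) * (q * r * Z + q * ∑ u, z u * L u - σ ^ 2) := by nlinarith
    exact nonneg_of_mul_nonneg_right h6 (by positivity) |> fun h => by
      by_contra hneg
      push Not at hneg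
      nlinarith [mul_pos (by positivity : 0 < 2 * r * q) (neg_pos.mpr hneg)]

end plane

lemma multi {I : Type} (n : ℕ) (P : Finset (I × I)) (hP : ∀ p ∈ P, p.1 ≠ p.2) :
    ∃ L : ℕ, ∀ (V : Type) (c : V → V → Bool) (A : I → Finset V), (∀ i, L ≤ (A i).card) →
      ∃ A' : I → Finset V, (∀ i, A' i ⊆ A i ∧ n ≤ (A' i).card) ∧
        ∀ p ∈ P, ∃ β, C044.Bt c β (A' p.1) (A' p.2) := by
  induction P using Finset.induction_on with
  | empty => exact ⟨n, fun V c A h => ⟨A, fun i => ⟨Subset.refl _, h i⟩, by simp⟩⟩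
  | insert p P _ ih =>
    obtain ⟨L, hL⟩ := ih fun p' hp' => hP p' (mem_insert_of_mem hp')
    have hp := hP p (mem_insert_self _ _)
    refine ⟨2 * L + 2 ^ (2 * L) * L, fun V c A h => ?_⟩
    obtain ⟨R, hR, B, hB, cR, cB, β, hβ⟩ := C044.bip c L (A p.1) (A p.2)
      (le_trans (by omega) (h _)) (le_trans (by omega) (h _))
    obtain ⟨A', h1, h2⟩ := hL V c (fun i => if i = p.1 then R else if i = p.2 then B else A i) (by
      intro i
      split_ifs
      · omega
      · omega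
      · exact le_trans (by omega) (h i))
    refine ⟨A', fun i => ⟨(h1 i).1.trans ?_, (h1 i).2⟩, fun p' hp' => ?_⟩
    · split_ifs with a b
      · rw [a]; exact hR
      · rw [b]; exact hB
      · exact Subset.refl _
    · rcases mem_insert.mp hp' with rfl | hp'
      · refine ⟨β, hβ.mono ?_ ?_⟩
        · simpa using (h1 p'.1).1
        · simpa [hp.symm] using (h1 p'.2).1
      · exact h2 p' hp'

lemma upper (n N : ℕ) (G : Fin n → Fin n → Prop)
    (hG : ∀ c : Fin N → Fin N → Bool, (∀ i j, c i j = c j i) →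
        ∃ (φ : Fin n → Fin N) (b : Bool), ∀ i j, G i j → φ i ≠ φ j ∧ c (φ i) (φ j) = b) :
    ∃ (m : ℕ) (H : SimpleGraph (Fin m)), H.Colorable N ∧
      ∀ col : Fin m → Fin m → Bool, (∀ a b, col a b = col b a) →
        ∃ (f : Fin n → Fin m) (b : Bool), Function.Injective f ∧
          ∀ x y : Fin n, G x y → H.Adj (f x) (f y) ∧ col (f x) (f y) = b := by
  obtain ⟨L, hL⟩ := multi (I := Fin N) (n + 1) (univ.filter fun p => p.1 ≠ p.2)
    (fun p hp => (mem_filter.mp hp).2)
  let e : Fin N × Fin L ≃ Fin (N * L) := finProdFinEquiv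
  let H : SimpleGraph (Fin (N * L)) := (⊤ : SimpleGraph (Fin N)).comap (fun a => (e.symm a).1)
  refine ⟨N * L, H, ⟨SimpleGraph.Coloring.mk (fun a => (e.symm a).1) (fun h => h)⟩,
    fun col hcol => ?_⟩
  obtain ⟨A, h1, h2⟩ := hL _ col (fun i => univ.image (fun l => e (i, l))) (by
    intro i
    rw [card_image_of_injective _ (fun a b h => by simpa using h)]
    simp)
  have hA : ∀ i, ∀ a ∈ A i, (e.symm a).1 = i := by
    intro i a ha
    obtain ⟨l, -, rfl⟩ := mem_image.mp ((h1 i).1 ha)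
    simp
  have : ∀ i, ∃ g : Fin (n + 1) → Fin (N * L), Function.Injective g ∧ ∀ x, g x ∈ A i := by
    intro i
    obtain ⟨B, hB, hc⟩ := exists_subset_card_eq (h1 i).2
    exact ⟨fun x => B.orderEmbOfFin hc x, (B.orderEmbOfFin hc).injective,
      fun x => hB (B.orderEmbOfFin_mem hc x)⟩
  choose g hg hgA using this
  obtain ⟨φ, b, hφ⟩ := hG (fun i j => col (g i 0) (g j 0)) (fun i j => hcol _ _)
  refine ⟨fun x => g (φ x) x.succ, b, ?_, fun x y hxy => ⟨?_, ?_⟩⟩
  · intro x y h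
    simp only at h
    have h3 : φ x = φ y := by rw [← hA _ _ (hgA (φ x) x.succ), h, hA _ _ (hgA (φ y) y.succ)]
    rw [h3] at h
    exact Fin.succ_injective _ (hg _ h)
  · change (e.symm _).1 ≠ (e.symm _).1
    rw [hA _ _ (hgA _ _), hA _ _ (hgA _ _)]
    exact (hφ x y hxy).1
  · obtain ⟨β, hβ⟩ := h2 (φ x, φ y) (mem_filter.mpr ⟨mem_univ _, (hφ x y hxy).1⟩)
    rw [hβ _ (hgA _ _) _ (hgA _ _), ← (hφ x y hxy).2, hβ _ (hgA _ _) _ (hgA _ _)]

lemma exists_arrow (n : ℕ) (G : SimpleGraph (Fin n)) :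
    ∃ N m : ℕ, ∃ H : SimpleGraph (Fin m), H.Colorable N ∧
      ∀ col : Fin m → Fin m → Bool, (∀ a b, col a b = col b a) →
        ∃ (f : Fin n → Fin m) (b : Bool), Function.Injective f ∧
          ∀ x y : Fin n, G.Adj x y → H.Adj (f x) (f y) ∧ col (f x) (f y) = b := by
  obtain ⟨ρ, hρ⟩ := C044.ramsey n n
  refine ⟨ρ, ρ, ⊤, ⟨SimpleGraph.Coloring.mk id (fun h => h)⟩, fun col hcol => ?_⟩
  have : ∃ b, ∃ X : Finset (Fin ρ), X.card = n ∧ C044.Cl col b X := by
    rcases hρ _ col hcol univ (by simp) with ⟨X, -, h⟩ | ⟨X, -, h⟩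
    · exact ⟨_, X, h⟩
    · exact ⟨_, X, h⟩
  obtain ⟨b, X, hc, hX⟩ := this
  refine ⟨fun x => X.orderEmbOfFin hc x, b, (X.orderEmbOfFin hc).injective, fun x y h => ?_⟩
  have hne := (X.orderEmbOfFin hc).injective.ne h.ne
  exact ⟨hne, hX _ (X.orderEmbOfFin_mem hc x) _ (X.orderEmbOfFin_mem hc y) hne⟩

/-- adding an apex vertex -/
def apex {n : ℕ} (G : Fin n → Fin n → Prop) (hs : ∀ i j, G i j → G j i) :
    SimpleGraph (Fin (n + 1)) where
  Adj x y := x ≠ y ∧ (x = 0 ∨ y = 0 ∨ ∃ a b, x = a.succ ∧ y = b.succ ∧ G a b)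
  symm := ⟨by
    rintro x y ⟨h, h1 | h1 | ⟨a, b, ha, hb, hab⟩⟩
    · exact ⟨h.symm, Or.inr (Or.inl h1)⟩
    · exact ⟨h.symm, Or.inl h1⟩
    · exact ⟨h.symm, Or.inr (Or.inr ⟨b, a, hb, ha, hs _ _ hab⟩)⟩⟩
  loopless := ⟨fun _ h => h.1 rfl⟩

lemma lower {F : Type} [Field F] [Fintype F] [CharP F 2] (hq3 : Fintype.card F % 3 = 2)
    (r : ℝ) (hr : 0 < r) (hq : (Fintype.card F : ℝ) ≤ r ^ 2) (s : ℕ) (t : ℝ) (ht : 1 < t)
    (h1 : Fintype.card F * (r + 1) < t) (h2 : 2 * (s : ℝ) < t)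
    {n : ℕ} (G : Fin n → Fin n → Prop) (hi : ∀ i, ¬ G i i) (hs : ∀ i j, G i j → G j i)
    (hG : Rich (1 / (t - 1)) G) (N m : ℕ) (H : SimpleGraph (Fin m)) (hH : H.Colorable N)
    (h : ∀ col : Fin m → Fin m → Bool, (∀ a b, col a b = col b a) →
        ∃ (f : Fin (n + 1) → Fin m) (b : Bool), Function.Injective f ∧
          ∀ x y, (apex G hs).Adj x y → H.Adj (f x) (f y) ∧ col (f x) (f y) = b) :
    Fintype.card F * Fintype.card F * s ≤ N := by
  by_contra hlt
  push Not at hlt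
  obtain ⟨κ⟩ := hH
  obtain ⟨ι⟩ : Nonempty (Fin N ↪ (F × F) × Fin s) :=
    Function.Embedding.nonempty_of_card_le (by simpa using hlt.le)
  obtain ⟨f, b, -, hf⟩ := h (fun a b => decide ((ι (κ a)).1 = (ι (κ b)).1 ∨
    Bz (ι (κ a)).1 (ι (κ b)).1)) (by
      intro a b
      rw [decide_eq_decide]
      exact ⟨fun h => h.imp Eq.symm Bz.symm, fun h => h.imp Eq.symm Bz.symm⟩)
  let g : Fin (n + 1) → (F × F) × Fin s := fun x => ι (κ (f x))
  have hg : ∀ x y, (apex G hs).Adj x y → g x ≠ g y ∧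
      decide ((g x).1 = (g y).1 ∨ Bz (g x).1 (g y).1) = b :=
    fun x y hxy => ⟨ι.injective.ne (κ.valid (hf x y hxy).1), (hf x y hxy).2⟩
  have ha : ∀ i j, G i j → (apex G hs).Adj i.succ j.succ := fun i j hij =>
    ⟨(Fin.succ_injective _).ne (fun h => hi i (by rwa [← h] at hij)),
      Or.inr (Or.inr ⟨i, j, rfl, rfl, hij⟩)⟩
  have h0 : ∀ i : Fin n, (apex G hs).Adj 0 i.succ := fun i => ⟨(Fin.succ_ne_zero i).symm, Or.inl rfl⟩
  have ht1 : 0 < t - 1 := by linarith
  have fin : ∀ τ : ℝ, τ < t → ¬ (1 + 1 / (t - 1) ≤ 1 / (t - 1) * τ) := by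
    intro τ hτ h
    rw [one_div_mul_eq_div, le_div_iff₀ ht1, add_mul, one_div_mul_cancel ht1.ne'] at h
    linarith
  cases b with
  | false =>
    obtain ⟨Y, hd, hz, hY⟩ := exists_Y r hr hq
    refine fin _ h1 (hG.obstr Y _ hd hY (fun i => (g i.succ).1) fun i j hij => ?_)
    have := (hg _ _ (ha i j hij)).2
    rw [decide_eq_false_iff_not, not_or] at this
    exact hz _ _ this.1 this.2
  | true =>
    have := hG.colour (W := Bool × Fin s)
      (fun i => (decide ((g 0).1 = (g i.succ).1), (g i.succ).2)) (by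
        intro i j hij heq
        rw [Prod.mk.injEq, decide_eq_decide] at heq
        obtain ⟨a1, a2⟩ := hg _ _ (ha i j hij)
        have b1 := (hg _ _ (h0 i)).2
        have b2 := (hg _ _ (h0 j)).2
        rw [decide_eq_true_iff] at a2 b1 b2
        have hne : (g i.succ).1 ≠ (g j.succ).1 := fun h => a1 (Prod.ext h heq.2)
        by_cases hc : (g 0).1 = (g i.succ).1
        · exact hne (hc.symm.trans (heq.1.mp hc))
        · exact tri hq3 (b1.resolve_left hc) (a2.resolve_left hne)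
            (b2.resolve_left (fun h => hc (heq.1.mpr h))))
    refine fin _ h2 ?_
    simpa using this

theorem main (K : ℕ) : ∃ (n : ℕ) (G : SimpleGraph (Fin (n + 1))) (N : ℕ), G.edgeSet.Nonempty ∧
    0 < N ∧
    (∃ (m : ℕ) (H : SimpleGraph (Fin m)), H.Colorable N ∧
      ∀ col : Fin m → Fin m → Bool, (∀ a b, col a b = col b a) →
        ∃ (f : Fin n → Fin m) (b : Bool), Function.Injective f ∧
          ∀ x y : Fin n, G.Adj x.succ y.succ → H.Adj (f x) (f y) ∧ col (f x) (f y) = b) ∧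
    ∀ (N' m : ℕ) (H : SimpleGraph (Fin m)), H.Colorable N' →
      (∀ col : Fin m → Fin m → Bool, (∀ a b, col a b = col b a) →
        ∃ (f : Fin (n + 1) → Fin m) (b : Bool), Function.Injective f ∧
          ∀ x y, G.Adj x y → H.Adj (f x) (f y) ∧ col (f x) (f y) = b) → K * N ≤ N' := by
  haveI : Fact (Nat.Prime 2) := ⟨Nat.prime_two⟩
  obtain ⟨k, hk⟩ : ∃ k, k = 32 * K := ⟨_, rfl⟩
  let F := GaloisField 2 (2 * k + 1)
  letI : Fintype F := Fintype.ofFinite F
  obtain ⟨a, ha⟩ : ∃ a, a = 2 ^ k := ⟨_, rfl⟩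
  have hak : k < a := by rw [ha]; exact Nat.lt_two_pow_self
  have hF : Fintype.card F = 2 * a ^ 2 := by
    rw [← Nat.card_eq_fintype_card, GaloisField.card 2 (2 * k + 1) (by omega), ha]; ring
  have hq3 : Fintype.card F % 3 = 2 := by
    have : a ^ 2 % 3 = 1 := by
      rw [ha, ← pow_mul, mul_comm, pow_mul]
      simp [Nat.pow_mod]
    omega
  have ha1 : (1 : ℝ) ≤ a := by exact_mod_cast (by omega : 1 ≤ a)
  have ha2 : (1 : ℝ) ≤ (a : ℝ) ^ 2 := by nlinarith
  have ha3 : (a : ℝ) ^ 2 ≤ (a : ℝ) ^ 3 := by nlinarith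
  obtain ⟨n, G, hG, hi, hs, hu⟩ := universal (8 * (a : ℝ) ^ 3) (by linarith) (64 * a ^ 6)
    (by push_cast; exact le_of_eq (by ring))
  have hn : 0 < n := by
    obtain ⟨D, -, -, -, sD, -⟩ := hG
    rcases Nat.eq_zero_or_pos n with rfl | h
    · simp at sD
    · exact h
  refine ⟨n, apex G hs, 64 * a ^ 6, ⟨s(0, (⟨0, hn⟩ : Fin n).succ),
    (SimpleGraph.mem_edgeSet _).mpr ⟨(Fin.succ_ne_zero _).symm, Or.inl rfl⟩⟩,
    Nat.mul_pos (by norm_num) (Nat.pow_pos (by omega)), ?_, fun N' m H hH h => ?_⟩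
  · obtain ⟨m, H, hH, h⟩ := upper n _ G hu
    refine ⟨m, H, hH, fun col hcol => ?_⟩
    obtain ⟨f, b, hf, h⟩ := h col hcol
    refine ⟨f, b, hf, fun x y hxy => h x y ?_⟩
    rcases hxy.2 with h1 | h1 | ⟨a, b, ha, hb, hab⟩
    · exact absurd h1 (Fin.succ_ne_zero _)
    · exact absurd h1 (Fin.succ_ne_zero _)
    · rw [Fin.succ_injective _ ha, Fin.succ_injective _ hb]; exact hab
  · have := lower hq3 (2 * a) (by linarith) (by rw [hF]; push_cast; nlinarith) (2 * a ^ 3)
      (8 * (a : ℝ) ^ 3) (by linarith) (by rw [hF]; push_cast; nlinarith)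
      (by push_cast; nlinarith) G hi hs hG N' m H hH h
    rw [hF] at this
    refine le_trans ?_ this
    have h1 : K * (64 * a ^ 6) = (32 * K) * (2 * a ^ 6) := by ring
    have h2 : 2 * a ^ 2 * (2 * a ^ 2) * (2 * a ^ 3) = (4 * a) * (2 * a ^ 6) := by ring
    rw [h1, h2]
    exact Nat.mul_le_mul_right _ (by omega)

end Pool.Agent.H.ChR
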